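import Pool.Agent.H30.FCB.StE
import Pool.Agent.H30.FCB.Basic

/-!
PREI: the inverse image of a chart of `Y` is covered by the charts of `X` above it.
-/

open MvPolynomial AlgebraicGeometry CategoryTheory

namespace FCB.PREI

section Model

variable {R ι C : Type} {r : ℕ} [CommRing R] [IsDomain R] [Algebra ℂ R] [Fintype ι]
  {D : Cox R ι C r}

omit [IsDomain R] in
lemma reg_mul {M : PreModel D} {x : M.X} {a b : FractionRing R} (ha : M.regAt x a)
    (hb : M.regAt x b) : M.regAt x (a * b) := by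
  obtain ⟨s, hs⟩ := ha
  obtain ⟨t, ht⟩ := hb
  exact ⟨s * t, by rw [map_mul, map_mul, hs, ht]⟩

omit [IsDomain R] in
lemma reg_one {M : PreModel D} {x : M.X} : M.regAt x (1 : FractionRing R) :=
  ⟨1, by rw [map_one, map_one]⟩

omit [IsDomain R] in
lemma unit_mul {M : PreModel D} {x : M.X} {a b : FractionRing R} (ha : M.unitAt x a)
    (hb : M.unitAt x b) : M.unitAt x (a * b) := by
  obtain ⟨s, hs', hs⟩ := ha
  obtain ⟨t, ht', ht⟩ := hb
  exact ⟨s * t, hs'.mul ht', by rw [map_mul, map_mul, hs, ht]⟩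

omit [IsDomain R] in
lemma unit_one {M : PreModel D} {x : M.X} : M.unitAt x (1 : FractionRing R) :=
  ⟨1, isUnit_one, by rw [map_one, map_one]⟩

lemma unit_inv (h1 : S_PRE1) {M : PreModel D} {c : C} {x : M.X} (hx : x ∈ M.U c)
    {a : FractionRing R} (ha : M.unitAt x a) : M.unitAt x a⁻¹ := by
  have h := (h1 R ι C r D M c x hx).2.2.2.2
  obtain ⟨h2, h3, h4⟩ := (h a).1 ha
  exact (h a⁻¹).2 ⟨inv_ne_zero h2, h4, by rwa [inv_inv]⟩

lemma unit_zpow (h1 : S_PRE1) {M : PreModel D} {c : C} {x : M.X} (hx : x ∈ M.U c)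
    {a : FractionRing R} (ha : M.unitAt x a) (k : ℤ) : M.unitAt x (a ^ k) := by
  have hn : ∀ n : ℕ, M.unitAt x (a ^ n) := by
    intro n
    induction n with
    | zero => rw [pow_zero]; exact unit_one
    | succ n ih => rw [pow_succ]; exact unit_mul ih ha
  cases k with
  | ofNat n => rw [Int.ofNat_eq_natCast, zpow_natCast]; exact hn n
  | negSucc n => rw [zpow_negSucc]; exact unit_inv h1 hx (hn (n + 1))

lemma unit_left (h1 : S_PRE1) {M : PreModel D} {c : C} {x : M.X} (hx : x ∈ M.U c)
    {a b : FractionRing R} (ha : M.regAt x a) (hb : M.regAt x b) (hab : M.unitAt x (a * b)) :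
    M.unitAt x a := by
  have h := (h1 R ι C r D M c x hx).2.2.2.2
  obtain ⟨h2, _, h4⟩ := (h (a * b)).1 hab
  have ha0 : a ≠ 0 := left_ne_zero_of_mul h2
  have hb0 : b ≠ 0 := right_ne_zero_of_mul h2
  refine (h a).2 ⟨ha0, ha, ?_⟩
  have : a⁻¹ = b * (a * b)⁻¹ := by
    field_simp
  rw [this]
  exact reg_mul hb h4

omit [IsDomain R] in
lemma unit_prod {M : PreModel D} {x : M.X} (g : ι → FractionRing R) (S : Finset ι)
    (h : ∀ k ∈ S, M.unitAt x (g k)) : M.unitAt x (∏ k ∈ S, g k) := by
  classical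
  induction S using Finset.induction_on with
  | empty => rw [Finset.prod_empty]; exact unit_one
  | insert k S hk ih =>
    rw [Finset.prod_insert hk]
    exact unit_mul (h k (by simp)) (ih fun j hj => h j (by simp [hj]))

/-- Laurent monomials in the functions `co c k` -/
noncomputable def P (D : Cox R ι C r) (c : C) (n : ι → ℤ) : FractionRing R :=
  ∏ k, D.co c k ^ n k

lemma co_ne (h : D.Laws) (c : C) (k : ι) : D.co c k ≠ 0 :=
  mul_ne_zero (h.xF_ne k) (h.monoZ_ne _)

lemma P_add (h : D.Laws) (c : C) (m n : ι → ℤ) : P D c (m + n) = P D c m * P D c n := by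
  unfold P
  rw [← Finset.prod_mul_distrib]
  exact Finset.prod_congr rfl fun k _ => zpow_add₀ (co_ne h c k) _ _

omit [Algebra ℂ R] in
lemma P_single [DecidableEq ι] (c : C) (k : ι) : P D c (Pi.single k 1) = D.co c k := by
  unfold P
  rw [Finset.prod_eq_single k]
  · simp
  · intro i _ hi
    simp [Pi.single_eq_of_ne hi]
  · simp

lemma monoZ_sum (h : D.Laws) {κ : Type} (S : Finset κ) (m : κ → ι → ℤ) :
    D.monoZ (∑ k ∈ S, m k) = ∏ k ∈ S, D.monoZ (m k) := by
  classical
  induction S using Finset.induction_on with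
  | empty => simp [Cox.monoZ_zero]
  | insert k S hk ih => rw [Finset.sum_insert hk, Finset.prod_insert hk, h.monoZ_add, ih]

omit [Algebra ℂ R] in
lemma monoZ_zsmul (k : ℤ) (m : ι → ℤ) : D.monoZ (k • m) = D.monoZ m ^ k := by
  unfold Cox.monoZ
  rw [← Finset.prod_zpow]
  refine Finset.prod_congr rfl fun j _ => ?_
  rw [Pi.smul_apply, smul_eq_mul, mul_comm, zpow_mul]

/-- a Laurent monomial of weight zero is the Laurent monomial in the functions `co c k` -/
lemma P_eq (h : D.Laws) (c : C) (n : ι → ℤ) (hn : D.wtZ n = 0) : P D c n = D.monoZ n := by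
  have h1 : P D c n = D.monoZ n * ∏ k, D.monoZ (-(D.σ c (D.deg k))) ^ n k := by
    unfold P Cox.co
    rw [Cox.monoZ, ← Finset.prod_mul_distrib]
    exact Finset.prod_congr rfl fun k _ => mul_zpow _ _ _
  have h2 : ∏ k, D.monoZ (-(D.σ c (D.deg k))) ^ n k = 1 := by
    have h3 : ∀ k ∈ (Finset.univ : Finset ι), D.monoZ (-(D.σ c (D.deg k))) ^ n k =
        D.monoZ (n k • (-(D.σ c (D.deg k)))) := fun k _ => (monoZ_zsmul _ _).symm
    rw [Finset.prod_congr rfl h3, ← monoZ_sum h]
    have h4 : ∑ k, n k • (-(D.σ c (D.deg k))) = -(D.σ c (D.wtZ n)) := by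
      unfold Cox.wtZ
      rw [map_sum, ← Finset.sum_neg_distrib]
      refine Finset.sum_congr rfl fun k _ => ?_
      rw [map_zsmul, smul_neg]
    rw [h4, hn, map_zero, neg_zero, Cox.monoZ_zero]
  rw [h1, h2, mul_one]

end Model

/-- exponents on `X` from exponents on `Y` -/
def E (n : CY → ℤ) : CX → ℤ
  | .t i => n (.t i)
  | .y j => n (.y j)
  | .z => n .z
  | .w => n .o
  | .v => n .o
  | .a => 0
  | .b => 0
  | .x => 0

lemma E_add (m n : CY → ℤ) : E (m + n) = E m + E n := by
  funext k; cases k <;> simp [E]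

lemma E_neg (m : CY → ℤ) : E (-m) = -E m := by
  funext k; cases k <;> simp [E]

lemma E_t (i : Fin 9) : E (Pi.single (CY.t i) 1) = Pi.single (CX.t i) 1 := by
  funext k; cases k <;> simp [E, Pi.single_apply]

lemma E_y (j : Fin 3) : E (Pi.single (CY.y j) 1) = Pi.single (CX.y j) 1 := by
  funext k; cases k <;> simp [E, Pi.single_apply]

lemma E_z : E (Pi.single CY.z 1) = Pi.single CX.z 1 := by
  funext k; cases k <;> simp [E]

lemma E_o : E (Pi.single CY.o 1) = Pi.single CX.w 1 + Pi.single CX.v 1 := by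
  funext k; cases k <;> simp [E]

/-- weights -/
lemma E_wt (n : CY → ℤ) (hn : DY.wtZ n = 0) : DX.wtZ (E n) = 0 := by
  have h0 := congrFun hn 0
  have h1 := congrFun hn 1
  have h2 := congrFun hn 2
  unfold Cox.wtZ at h0 h1 h2
  rw [sum_CY] at h0 h1 h2
  simp only [DY, degY, Pi.add_apply, Finset.sum_apply, Pi.smul_apply, smul_eq_mul, Fin.sum_univ_three,
    Pi.zero_apply, Matrix.cons_val_zero, Matrix.cons_val_one, Matrix.cons_val, mul_one, mul_zero,
    Finset.sum_const_zero] at h0 h1 h2
  unfold Cox.wtZ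
  rw [sum_CX]
  funext k
  fin_cases k <;>
  simp only [DX, degX, E, Pi.add_apply, Finset.sum_apply, Pi.smul_apply, smul_eq_mul, Fin.sum_univ_three,
    Pi.zero_apply, Matrix.cons_val_zero, Matrix.cons_val_one, Matrix.cons_val, mul_one, mul_zero,
    Finset.sum_const_zero, Fin.zero_eta, Fin.mk_one, Fin.reduceFinMk] <;>
  linarith

lemma prod_CY {F : Type} [CommMonoid F] (f : CY → F) :
    ∏ j, f j = (∏ i, f (.t i)) * ((∏ j, f (.y j)) * (f .z * f .o)) :=
  sum_CY (M := Additive F) f

lemma prod_CX {F : Type} [CommMonoid F] (f : CX → F) :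
    ∏ j, f j = (∏ i, f (.t i)) * ((∏ j, f (.y j)) *
      (f .z * (f .w * (f .v * (f .a * (f .b * f .x)))))) :=
  sum_CX (M := Additive F) f

lemma Phi_mono [IsDomain RX] (Φ : FractionRing RY →+* FractionRing RX) (hΦ : IsPhi Φ)
    (n : CY → ℤ) : Φ (DY.monoZ n) = DX.monoZ (E n) := by
  have ht : ∀ i, Φ (algebraMap RY (FractionRing RY) (DY.X (.t i))) =
      algebraMap RX (FractionRing RX) (DX.X (.t i)) := fun i => by
    rw [hΦ, phi]; congr 1; exact aeval_X _ _
  have hy : ∀ j, Φ (algebraMap RY (FractionRing RY) (DY.X (.y j))) =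
      algebraMap RX (FractionRing RX) (DX.X (.y j)) := fun j => by
    rw [hΦ, phi]; congr 1; exact aeval_X _ _
  have hz : Φ (algebraMap RY (FractionRing RY) (DY.X .z)) =
      algebraMap RX (FractionRing RX) (DX.X .z) := by
    rw [hΦ, phi]; congr 1; exact aeval_X _ _
  have ho : Φ (algebraMap RY (FractionRing RY) (DY.X .o)) =
      algebraMap RX (FractionRing RX) (DX.X .w) * algebraMap RX (FractionRing RX) (DX.X .v) := by
    rw [hΦ, phi, ← map_mul]; congr 1; exact aeval_X _ _
  unfold Cox.monoZ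
  rw [prod_CY, prod_CX, map_mul, map_mul, map_mul, map_prod, map_prod, map_zpow₀, map_zpow₀, hz, ho]
  simp only [map_zpow₀, ht, hy, E, zpow_zero, mul_one, mul_zpow]

/-- support of the exponents -/
lemma E_supp (c : ChX) (n : CY → ℤ) (hn : ∀ j, n j ≠ 0 → j ∈ uY (tau c)) (k : CX)
    (hk : E n k ≠ 0) : k ∈ uX c := by
  obtain ⟨i, j, l⟩ := c
  cases k with
  | t i' =>
    have := hn _ hk
    fin_cases l <;> simp [uX, uY, tau] at this ⊢ <;> exact this
  | y j' =>
    have := hn _ hk
    fin_cases l <;> simp [uX, uY, tau] at this ⊢ <;> exact this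
  | z =>
    have := hn _ hk
    fin_cases l <;> simp [uX, uY, tau] at this ⊢
  | w =>
    have := hn _ hk
    fin_cases l <;> simp [uX, uY, tau] at this ⊢
  | v =>
    have := hn _ hk
    fin_cases l <;> simp [uX, uY, tau] at this ⊢
  | a => exact absurd rfl hk
  | b => exact absurd rfl hk
  | x => exact absurd rfl hk

/-- the combinatorics of the charts -/
lemma comb (N : CX → Prop) (c₀ : ChX) (c' : ChY) (hun : ∀ k ∈ uX c₀, N k)
    (hT : N (.t c'.1)) (hY : N (.y c'.2.1)) (hwv : c'.2.2 = 0 → N .w ∧ N .v)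
    (hz : c'.2.2 = 1 → N .z) : ∃ c : ChX, tau c = c' ∧ ∀ l ∈ uX c, N l := by
  obtain ⟨i', j', κ⟩ := c'
  obtain ⟨i₀, j₀, k₀⟩ := c₀
  simp only at hT hY hwv hz
  have key : ∀ k : Fin 5, tau (i', j', k) = (i', j', κ) →
      (∀ l ∈ uX (i', j', k), N l) → ∃ c : ChX, tau c = (i', j', κ) ∧ ∀ l ∈ uX c, N l :=
    fun k h1 h2 => ⟨(i', j', k), h1, h2⟩
  fin_cases κ
  · obtain ⟨hw, hv⟩ := hwv rfl
    clear hz hwv
    fin_cases k₀
    · have ha := hun .a (by simp [uX])
      refine key 0 rfl fun l hl => ?_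
      simp only [uX, Finset.mem_union, Finset.mem_insert, Finset.mem_singleton] at hl
      rcases hl with (rfl | rfl) | rfl | rfl | rfl <;> assumption
    · have hb := hun .b (by simp [uX])
      refine key 1 rfl fun l hl => ?_
      simp only [uX, Finset.mem_union, Finset.mem_insert, Finset.mem_singleton] at hl
      rcases hl with (rfl | rfl) | rfl | rfl | rfl <;> assumption
    · have hb := hun .b (by simp [uX])
      refine key 1 rfl fun l hl => ?_
      simp only [uX, Finset.mem_union, Finset.mem_insert, Finset.mem_singleton] at hl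
      rcases hl with (rfl | rfl) | rfl | rfl | rfl <;> assumption
    · have ha := hun .a (by simp [uX])
      refine key 0 rfl fun l hl => ?_
      simp only [uX, Finset.mem_union, Finset.mem_insert, Finset.mem_singleton] at hl
      rcases hl with (rfl | rfl) | rfl | rfl | rfl <;> assumption
    · have ha := hun .a (by simp [uX])
      refine key 0 rfl fun l hl => ?_
      simp only [uX, Finset.mem_union, Finset.mem_insert, Finset.mem_singleton] at hl
      rcases hl with (rfl | rfl) | rfl | rfl | rfl <;> assumption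
  · have hz' := hz rfl
    clear hz hwv
    fin_cases k₀
    · have ha := hun .a (by simp [uX])
      have hw := hun .w (by simp [uX])
      refine key 3 rfl fun l hl => ?_
      simp only [uX, Finset.mem_union, Finset.mem_insert, Finset.mem_singleton] at hl
      rcases hl with (rfl | rfl) | rfl | rfl | rfl <;> assumption
    · have hb := hun .b (by simp [uX])
      have hv := hun .v (by simp [uX])
      refine key 2 rfl fun l hl => ?_
      simp only [uX, Finset.mem_union, Finset.mem_insert, Finset.mem_singleton] at hl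
      rcases hl with (rfl | rfl) | rfl | rfl | rfl <;> assumption
    · have hb := hun .b (by simp [uX])
      have hv := hun .v (by simp [uX])
      refine key 2 rfl fun l hl => ?_
      simp only [uX, Finset.mem_union, Finset.mem_insert, Finset.mem_singleton] at hl
      rcases hl with (rfl | rfl) | rfl | rfl | rfl <;> assumption
    · have ha := hun .a (by simp [uX])
      have hw := hun .w (by simp [uX])
      refine key 3 rfl fun l hl => ?_
      simp only [uX, Finset.mem_union, Finset.mem_insert, Finset.mem_singleton] at hl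
      rcases hl with (rfl | rfl) | rfl | rfl | rfl <;> assumption
    · have ha := hun .a (by simp [uX])
      have hb := hun .b (by simp [uX])
      have hxx := hun .x (by simp [uX])
      refine key 4 rfl fun l hl => ?_
      simp only [uX, Finset.mem_union, Finset.mem_insert, Finset.mem_singleton] at hl
      rcases hl with (rfl | rfl) | rfl | rfl | rfl | rfl <;> assumption

end FCB.PREI

namespace FCB

open PREI

theorem prei (hPRE1 : S_PRE1) (hCHEL : S_CHEL) : S_PREI := by
  intro _ hX hY M M' Φ f hΦ hf c' x hfx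
  obtain ⟨c₀, hx⟩ := M.cov x
  have hfx0 := hf.mem c₀ x hx
  -- images of nonvanishing coordinates of `Y`
  have hreg : ∀ k : CX, M.regAt x (DX.co c₀ k) := by
    intro k
    have h1 := (hCHEL RX CX ChX 5 DX hX c₀).1 (DX.deg k) (DX.X k) (DX.X_mem k)
    exact (hPRE1 RX CX ChX 5 DX M.toPreModel c₀ x hx).2.1 ⟨_, h1⟩
  have hun : ∀ k ∈ uX c₀, M.unitAt x (DX.co c₀ k) := (M.inter c₀ c₀ x hx).1 hx
  have hcon : ∀ j ∈ uY c', M.unitAt x (P DX c₀ (E (Pi.single j 1))) := by
    intro j hj
    obtain ⟨s, hs, hs'⟩ := (M'.inter (tau c₀) c' (f x) hfx0).1 hfx j hj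
    have h1 := hf.stalk x s
    rw [hs'] at h1
    -- the function as a Laurent monomial
    set σ := DY.σ (tau c₀) (DY.deg j) with hσ
    have h2 : DY.co (tau c₀) j = DY.monoZ (Pi.single j 1 + -σ) := by
      rw [hY.monoZ_add, Cox.monoZ_single, zpow_one]
      rfl
    have hwt : DY.wtZ (Pi.single j 1 + -σ) = 0 := by
      rw [Cox.wtZ_add, Cox.wtZ_neg, Cox.wtZ_single, one_smul, hY.σ_wt, add_neg_cancel]
    rw [h2, Phi_mono Φ hΦ, ← P_eq hX c₀ _ (E_wt _ hwt), E_add, P_add hX, E_neg] at h1
    have h3 : M.unitAt x (P DX c₀ (E (Pi.single j 1)) * P DX c₀ (-E σ)) :=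
      ⟨(f.stalkMap x).hom s, hs.map _, h1⟩
    have h4 : M.unitAt x (P DX c₀ (-E σ)) := by
      unfold P
      refine unit_prod _ _ fun k _ => ?_
      by_cases hk : E σ k = 0
      · rw [Pi.neg_apply, hk, neg_zero, zpow_zero]; exact unit_one
      · refine unit_zpow hPRE1 hx (hun k ?_) _
        exact E_supp c₀ σ (fun l hl => hY.σ_supp (tau c₀) (DY.deg j) l hl) k hk
    have h5 : M.unitAt x ((P DX c₀ (E (Pi.single j 1)) * P DX c₀ (-E σ)) *
        (P DX c₀ (-E σ))⁻¹) := unit_mul h3 (unit_inv hPRE1 hx h4)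
    have hne : P DX c₀ (-E σ) ≠ 0 := by
      unfold P
      exact Finset.prod_ne_zero_iff.2 fun k _ => zpow_ne_zero _ (co_ne hX c₀ k)
    rwa [mul_assoc, mul_inv_cancel₀ hne, mul_one] at h5
  have hT : M.unitAt x (DX.co c₀ (.t c'.1)) := by
    have h := hcon (.t c'.1) (by simp [uY])
    rwa [E_t, P_single] at h
  have hYj : M.unitAt x (DX.co c₀ (.y c'.2.1)) := by
    have h := hcon (.y c'.2.1) (by simp [uY])
    rwa [E_y, P_single] at h
  have hwv : c'.2.2 = 0 → M.unitAt x (DX.co c₀ .w) ∧ M.unitAt x (DX.co c₀ .v) := by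
    intro h0
    have hwv : M.unitAt x (DX.co c₀ .w * DX.co c₀ .v) := by
      have h := hcon .o (by simp [uY, h0])
      rwa [E_o, P_add hX, P_single, P_single] at h
    refine ⟨unit_left hPRE1 hx (hreg .w) (hreg .v) hwv, ?_⟩
    rw [mul_comm] at hwv
    exact unit_left hPRE1 hx (hreg .v) (hreg .w) hwv
  have hz : c'.2.2 = 1 → M.unitAt x (DX.co c₀ .z) := by
    intro h1
    have h := hcon .z (by simp [uY, h1])
    rwa [E_z, P_single] at h
  obtain ⟨c, hc, hcN⟩ := comb (fun k => M.unitAt x (DX.co c₀ k)) c₀ c' hun hT hYj hwv hz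
  exact ⟨c, hc, (M.inter c₀ c x hx).2 hcN⟩

end FCB
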